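import Pool.Agent.W622.ETG.Lin

/-! Project ELG: B1B (helper378). -/

set_option autoImplicit false

namespace Pool.Agent.W378.ELG

open Pool.Agent.W622.ETG Module

section
variable {V : Type} [AddCommGroup V] [Module (ZMod 2) V] [Finite V] {e : V}

/-- sum of the dimensions -/
noncomputable def sg (S : Set (DSub V)) : ℕ := ∑ᶠ X ∈ S, finrank (ZMod 2) X

lemma sg_def (S : Set (DSub V)) :
    sg S = ∑ X ∈ (Set.toFinite S).toFinset, finrank (ZMod 2) X :=
  finsum_mem_eq_finite_toFinset_sum _ _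

lemma sg_ge {S : Set (DSub V)} {m : ℕ} (h : ∀ X ∈ S, m ≤ finrank (ZMod 2) X) :
    m * S.ncard ≤ sg S := by
  rw [sg_def, Set.ncard_eq_toFinset_card S, mul_comm, ← smul_eq_mul]
  exact Finset.card_nsmul_le_sum _ _ _ (fun X hX => h X (by simpa using hX))

lemma sg_dim {S : Set (DSub V)} (h : sSupIndep S) :
    finrank (ZMod 2) (sSup S : DSub V) = sg S := by
  have h1 := idim (Set.toFinite S).toFinset (by simpa using h)
  rw [sg_def, ← h1, Set.Finite.coe_toFinset]

lemma sp_sum (S : Finset (DSub V)) (ω : DSub V → Frm V) (hind : sSupIndep (S : Set (DSub V)))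
    (halt : ∀ X ∈ S, EF e (ω X)) (hsp : ∀ X ∈ S, sp (ω X) = X) :
    sp (∑ X ∈ S, ω X) = sSup (S : Set (DSub V)) ∧ EF e (∑ X ∈ S, ω X) := by
  classical
  induction S using Finset.induction_on with
  | empty =>
    rw [Finset.sum_empty, Finset.coe_empty, sSup_empty]
    exact ⟨sp_zero, EF.zero⟩
  | insert X S hX ih =>
    have h1 : sSupIndep (S : Set (DSub V)) := hind.mono (by simp)
    obtain ⟨h2, h3⟩ := ih h1 (fun Y hY => halt Y (Finset.mem_insert_of_mem hY))
      (fun Y hY => hsp Y (Finset.mem_insert_of_mem hY))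
    have h4 := halt X (Finset.mem_insert_self X S)
    have h5 := hsp X (Finset.mem_insert_self X S)
    have h6 : Disjoint (sp (ω X)) (sp (∑ Y ∈ S, ω Y)) := by
      rw [h5, h2]
      have h7 := hind (Finset.mem_coe.2 (Finset.mem_insert_self X S))
      have h8 : ((insert X S : Finset (DSub V)) : Set (DSub V)) \ {X} = (S : Set (DSub V)) := by
        ext Y
        simp only [Finset.coe_insert, Set.mem_sdiff, Set.mem_insert_iff, Finset.mem_coe,
          Set.mem_singleton_iff]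
        constructor
        · rintro ⟨h9 | h9, h10⟩
          · exact absurd h9 h10
          · exact h9
        · intro h9
          refine ⟨Or.inr h9, ?_⟩
          rintro rfl
          exact hX h9
      rw [h8] at h7
      exact h7
    rw [Finset.sum_insert hX]
    refine ⟨?_, h4.add h3⟩
    rw [sp_add h4 h3 h6, h5, h2, Finset.coe_insert, sSup_insert]

omit [Finite V] in
lemma loc {A : Fam V} (hA : CB e A) {X : DSub V} (h : Block e A X) : LocBlock e A X := by
  rcases h with h | h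
  · exact absurd h.1 (hA.nc X)
  · exact h

/-- the sum of the forms of the blocks in `S` -/
noncomputable def sm (e : V) (A : Fam V) (S : Set (DSub V)) : Frm V := ∑ᶠ X ∈ S, om e A X

lemma sm_def (A : Fam V) (S : Set (DSub V)) :
    sm e A S = ∑ X ∈ (Set.toFinite S).toFinset, om e A X :=
  finsum_mem_eq_finite_toFinset_sum _ _

lemma sm_diff (A : Fam V) {S : Set (DSub V)} {X : DSub V} (h : X ∈ S) :
    sm e A S = om e A X + sm e A (S \ {X}) := by
  have h1 : insert X (S \ {X}) = S := by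
    rw [Set.insert_sdiff_singleton, Set.insert_eq_of_mem h]
  conv_lhs => rw [← h1]
  exact finsum_mem_insert _ (by simp) (Set.toFinite _)

lemma sm_facts (hOM : S_OM) {A : Fam V} (hA : CB e A) {S : Set (DSub V)}
    (hS : ∀ X ∈ S, Block e A X) (hind : sSupIndep S) :
    sm e A S ∈ A ∧ sp (sm e A S) = sSup S := by
  have h1 : ∀ X ∈ (Set.toFinite S).toFinset, Block e A X := fun X hX => hS X (by simpa using hX)
  have h2 := sp_sum (e := e) (Set.toFinite S).toFinset (om e A) (by simpa using hind)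
    (fun X hX => hA.mc.ef _ (hOM V e A X hA.mc.ef (loc hA (h1 X hX))).1)
    (fun X hX => (hOM V e A X hA.mc.ef (loc hA (h1 X hX))).2.2.1)
  rw [sm_def]
  refine ⟨Submodule.sum_mem _ fun X hX => (hOM V e A X hA.mc.ef (loc hA (h1 X hX))).1, ?_⟩
  rw [h2.1, Set.Finite.coe_toFinset]

end

theorem t_B1B (hBEV : S_BEV) (hBDIS : S_BDIS) (hBNT : S_BNT) (hOM : S_OM) (hCB1 : S_CB1)
    (hMD : S_MD) (hNGC : S_NGC) (hHH : S_HH) (hEXC : S_EXC) : S_B1B := by
  intro V _ _ _ e A F c N d hA hF hc h1 hNG hNc hdep hmin hd hNd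
  obtain ⟨d', hd1, hN2, hGd, hn, -⟩ := hEXC V e A F N hA hF hNG hdep hmin
  obtain ⟨X₁, hX₁, X₂, hX₂, hX12⟩ := Finset.one_lt_card.1 (show 1 < N.card by omega)
  have hdd : d' = d := by rw [← hGd X₁ (hNG hX₁), hNd X₁ hX₁]
  subst hdd
  have hBL : ∀ b : V, b ≠ 0 → ∀ m, (∀ X ∈ BL e A b, m ≤ finrank (ZMod 2) X) →
      m * (BL e A b).ncard + 1 ≤ finrank (ZMod 2) V := by
    intro b hb m hm
    obtain ⟨h2, _, h3⟩ := hCB1 V e A b hA hb
    rw [sg_dim h2.1] at h3
    have := sg_ge hm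
    omega
  have hall2 : ∀ X, Block e A X → 2 ≤ finrank (ZMod 2) X := by
    intro X hX
    by_cases hg : Good A X
    · rw [hGd X ⟨hX, hg⟩]
      exact hd
    · exact (hBEV V e A hA.mc X ⟨hX, hg⟩).2
  have h2c : ∀ b : V, b ≠ 0 → 2 * (BL e A b).ncard + 1 ≤ finrank (ZMod 2) V := fun b hb =>
    hBL b hb 2 fun X hX => hall2 X hX.1
  have hbad : ∀ F' ∈ BB e A, finrank (ZMod 2) V + 1 ≤ 2 * finrank (ZMod 2) F' := by
    intro F' hF'
    obtain ⟨c', hc', h3, _⟩ := hNGC V e A F' hA hF'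
    have := h2c c' hc'
    omega
  obtain ⟨g, hg⟩ : ∃ g, g = (N.card - 1) * d' := ⟨_, rfl⟩
  have hgd : d' ≤ g := by
    rw [hg]
    exact Nat.le_mul_of_pos_left _ (by omega)
  rw [← hg] at hn
  have hbF := hbad F hF
  have hall : ∀ X, Block e A X → d' ≤ finrank (ZMod 2) X := by
    intro X hX
    by_cases hgX : Good A X
    · exact (hGd X ⟨hX, hgX⟩).ge
    · have h2 := hbad X ⟨hX, hgX⟩
      omega
  -- the blocks of the circuit
  have hDblk : ∀ Z ∈ (insert F (N : Set (DSub V))), Block e A Z := by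
    intro Z hZ
    rcases hZ with h | h
    · rw [h]; exact hF.1
    · exact (hNG h).1
  have hX₁D : X₁ ∈ insert F (N : Set (DSub V)) := Or.inr hX₁
  have hX₂D : X₂ ∈ insert F (N : Set (DSub V)) := Or.inr hX₂
  have hdiff : ∀ X ∈ insert F (N : Set (DSub V)),
      insert F (N : Set (DSub V)) \ {X} ≠ insert F (N : Set (DSub V)) := by
    intro X hX h
    rw [← h] at hX
    exact hX.2 rfl
  have hind : ∀ X ∈ insert F (N : Set (DSub V)), sSupIndep (insert F (N : Set (DSub V)) \ {X}) :=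
    fun X hX => hmin _ Set.sdiff_subset (hdiff X hX)
  have htop : sSup (insert F (N : Set (DSub V)) \ {X₂}) = ⊤ :=
    hMD V e A _ X₂ hA hDblk hdep hmin hX₂D (hNG hX₂).2
  have hdis : Disjoint X₁ X₂ := hBDIS V e A X₁ X₂ hA.mc (hNG hX₁) (hNG hX₂).1 hX12
  obtain ⟨x₁, hx₁, hx₁0⟩ := Submodule.exists_mem_ne_zero_of_ne_bot
    (hBNT V e A X₁ hA.mc (hNG hX₁).1).2
  obtain ⟨x₂, hx₂, hx₂0⟩ := Submodule.exists_mem_ne_zero_of_ne_bot
    (hBNT V e A X₂ hA.mc (hNG hX₂).1).2
  have hζ := sm_facts hOM hA (S := insert F (N : Set (DSub V)) \ {X₂})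
    (fun X hX => hDblk X hX.1) (hind X₂ hX₂D)
  rw [htop] at hζ
  obtain ⟨hζA, hζs⟩ := hζ
  obtain ⟨a, ha⟩ : ∃ a, sm e A (insert F (N : Set (DSub V)) \ {X₂}) a = x₁ + x₂ := by
    have : x₁ + x₂ ∈ sp (sm e A (insert F (N : Set (DSub V)) \ {X₂})) := by
      rw [hζs]
      exact Submodule.mem_top
    exact mem_sp.1 this
  have hne : om e A X₁ a ≠ x₁ := by
    intro hc1
    have hX₁' : X₁ ∈ insert F (N : Set (DSub V)) \ {X₂} := ⟨hX₁D, hX12⟩
    have h3 : sm e A ((insert F (N : Set (DSub V)) \ {X₂}) \ {X₁}) a = x₂ := by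
      rw [sm_diff A hX₁', LinearMap.add_apply, hc1] at ha
      exact add_left_cancel ha
    have hη := sm_facts hOM hA (S := (insert F (N : Set (DSub V)) \ {X₂}) \ {X₁})
      (fun X hX => hDblk X hX.1.1) ((hind X₂ hX₂D).mono Set.sdiff_subset)
    have h0 : (insert F (N : Set (DSub V)) \ {X₂}) \ {X₁} =
        (insert F (N : Set (DSub V)) \ {X₁}) \ {X₂} := by
      ext Z
      simp only [Set.mem_sdiff, Set.mem_singleton_iff]
      tauto
    have h4 : x₂ ∈ sSup ((insert F (N : Set (DSub V)) \ {X₁}) \ {X₂}) := by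
      rw [← h0, ← hη.2]
      exact ⟨a, h3⟩
    have h5 : Disjoint X₂ (sSup ((insert F (N : Set (DSub V)) \ {X₁}) \ {X₂})) :=
      (hind X₁ hX₁D) ⟨hX₂D, fun h => hX12 h.symm⟩
    have h6 : x₂ ∈ X₂ ⊓ sSup ((insert F (N : Set (DSub V)) \ {X₁}) \ {X₂}) := ⟨hx₂, h4⟩
    rw [h5.eq_bot, Submodule.mem_bot] at h6
    exact hx₂0 h6
  have hh0 : x₁ + x₂ ≠ 0 := by
    intro h
    have h3 : x₁ = x₂ := add_eq_zero'.1 h
    have h4 : x₁ ∈ X₁ ⊓ X₂ := ⟨hx₁, h3 ▸ hx₂⟩
    rw [hdis.eq_bot, Submodule.mem_bot] at h4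
    exact hx₁0 h4
  have ha0 : a ≠ 0 := by
    rintro rfl
    rw [map_zero] at ha
    exact hh0 ha.symm
  have hHH' := hHH V e A X₁ X₂ x₁ x₂ _ a hA (hNG hX₁) (hNG hX₂) hX12 hx₁ hx₂ hx₁0 hζA ha hne
  rw [hNd X₁ hX₁, hNd X₂ hX₂] at hHH'
  have key : finrank (ZMod 2) V ≤ 2 * d' + 1 := by
    by_cases hgd' : ∃ X ∈ BL e A a, Good A X
    · have h5 := hHH'.2 hgd'
      have h6 := hBL a ha0 d' (fun X hX => hall X hX.1)
      by_contra hcon
      obtain ⟨k, hk⟩ : ∃ k, finrank (ZMod 2) V = 2 * d' + 2 + k := ⟨_, (Nat.add_sub_of_le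
        (by omega)).symm⟩
      rw [hk] at h5 h6
      have h7 : 3 + k ≤ (BL e A a).ncard := by omega
      have h8 : d' * (3 + k) ≤ d' * (BL e A a).ncard := Nat.mul_le_mul_left _ h7
      nlinarith
    · push Not at hgd'
      have h5 := hHH'.1
      have h6 := hBL a ha0 ((finrank (ZMod 2) V + 2) / 2) (fun X hX => by
        have := hbad X ⟨hX.1, hgd' X hX⟩
        omega)
      have h7 : (BL e A a).ncard ≤ 1 := by
        by_contra hcon
        have h8 : (finrank (ZMod 2) V + 2) / 2 * 2 ≤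
            (finrank (ZMod 2) V + 2) / 2 * (BL e A a).ncard :=
          Nat.mul_le_mul_left _ (by omega)
        omega
      omega
  have h9 := hBL c hc d' (fun X hX => hall X hX.1)
  have h10 : 1 + d' ≤ (BL e A c).ncard := by omega
  have h11 : d' * (1 + d') ≤ d' * (BL e A c).ncard := Nat.mul_le_mul_left _ h10
  nlinarith

end Pool.Agent.W378.ELG
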